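import Pool.Agent.X271.SlopeOne

/-!
# The quadruples `(1, b, 1, d)` with `b ≥ 0` are not realized

For no field `K` and no `b, d ≥ 0` is there a proper monomial ideal `I` in a polynomial ring over
`K` with `v(I^k) = k + b` and `reg(I^k) = k + d` for all large `k`.  In particular the admissible
quadruple `(a,b,c,d) = (1,0,1,1)` is not realized.
-/

namespace Pool.Agent.Results.MP_d985a5_al.SlopeOneExcluded

open MvPolynomial Pool.Agent.X271.VNum Pool.Agent.X271.Mono Pool.Agent.X271.SlopeOne
  Pool.Agent.H677R3.EdgeReg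

theorem result :
    (∀ (K : Type*) [Field K] (b d : ℕ),
      ¬ ∃ (n : ℕ) (I : Ideal (MvPolynomial (Fin n) K)), IsMonomial I ∧ I ≠ ⊤ ∧
        ∀ᶠ k : ℕ in Filter.atTop,
          vNumber (I ^ k) = 1 * k + b ∧ IsReg (I ^ k) (1 * k + d)) := by
  rintro K _ b d ⟨n, I, hI, hI1, h⟩
  simp only [one_mul] at h
  exact main hI hI1 b d h

end Pool.Agent.Results.MP_d985a5_al.SlopeOneExcluded
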